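import Pool.Agent.W662.CB.Stmts2

set_option autoImplicit false

open MeasureTheory Filter Topology Complex
open scoped InnerProductSpace ENNReal

namespace Pool.Agent.W853.CB2

open Pool.Agent.W662.CB

section aux

variable {K : Type} [NormedAddCommGroup K] [InnerProductSpace ℂ K] [CompleteSpace K]

theorem norm_proj_le (p : K →L[ℂ] K) (h1 : p * p = p) (h2 : star p = p) : ‖p‖ ≤ 1 := by
  have h3 : ‖p‖ * ‖p‖ = ‖p‖ := by
    have := CStarRing.norm_star_mul_self (x := p)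
    rw [h2, h1] at this
    exact this.symm
  nlinarith [norm_nonneg p, sq_nonneg (‖p‖ - 1)]

theorem pu (p u : K →L[ℂ] K) (h1 : p * p = p) (h2 : star p = p) (h3 : u * star u = p) :
    p * u = u := by
  have h4 : (u - p * u) * star (u - p * u) = 0 := by
    rw [star_sub, star_mul, h2]
    have : (u - p * u) * (star u - star u * p) =
        u * star u - u * star u * p - p * (u * star u) + p * (u * star u) * p := by
      noncomm_ring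
    rw [this, h3, h1, h1]
    abel
  have h5 : u - p * u = 0 := by
    rw [← CStarRing.mul_star_self_eq_zero_iff]
    exact h4
  exact (sub_eq_zero.1 h5).symm

theorem up (p u : K →L[ℂ] K) (h1 : p * p = p) (h2 : star p = p) (h3 : star u * u = p) :
    u * p = u := by
  have := pu p (star u) h1 h2 (by rw [star_star]; exact h3)
  have h4 := congrArg star this
  rw [star_mul, star_star, h2] at h4
  exact h4

theorem norm_u_le (p u : K →L[ℂ] K) (h1 : p * p = p) (h2 : star p = p) (h3 : star u * u = p) :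
    ‖u‖ ≤ 1 := by
  have h4 : ‖u‖ * ‖u‖ = ‖p‖ := by
    rw [← CStarRing.norm_star_mul_self, h3]
  have h5 := norm_proj_le p h1 h2
  nlinarith [norm_nonneg u]

theorem kap_le {H : Type} [NormedAddCommGroup H] [InnerProductSpace ℂ H] [CompleteSpace H]
    (κ : (H →L[ℂ] H) →⋆ₐ[ℂ] (K →L[ℂ] K)) (x : H →L[ℂ] H) : ‖κ x‖ ≤ ‖x‖ :=
  NonUnitalStarAlgHom.norm_apply_le κ x

end aux

/-- one box, with a commuting element of `B` instead of a scalar -/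
theorem onebox (g1 : S_Q1) (g2 : S_Q2) (h1 : S_B1) (h5 : S_B5) (h6 : S_B6) (hd3 : S_D3)
    (H K : Type) [NormedAddCommGroup H] [InnerProductSpace ℂ H] [CompleteSpace H]
    [NormedAddCommGroup K] [InnerProductSpace ℂ K] [CompleteSpace K]
    (M N : VonNeumannAlgebra H) (ξ : H) (U : ℝ → H →L[ℂ] H) (hstd : Std M N ξ U)
    (κ : (H →L[ℂ] H) →⋆ₐ[ℂ] (K →L[ℂ] K)) (V : ℝ → K →L[ℂ] K)
    (A B : VonNeumannAlgebra K) (hAB : ∀ x : K →L[ℂ] K, x ∈ A → x ∈ B)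
    (hBM : ∀ Z : K →L[ℂ] K, Z ∈ B → Aff M κ V Z)
    (J : H →L[ℂ] K) (E : ℂ → K →L[ℂ] K) (T δ : ℝ) (hbox : BoxP U κ V J E T δ) (hEA : E 0 ∈ A)
    (x : H →L[ℂ] H) (r : ℝ) (hκx : κ x ∈ B)
    (hY : ∀ Y : K →L[ℂ] K, Y ∈ A → E 0 * Y * E 0 = Y → ‖Y‖ ≤ 1 →
      ‖(Y * κ x - κ x * Y) (J ξ)‖ ≤ r) :
    ∃ S : K →L[ℂ] K, Rel A B S ∧ ‖S‖ ≤ ‖x‖ ∧
      ‖(S - κ x) (E (-I / 2) (J ξ))‖ ≤ r + 2 * ‖x‖ * δ := by
  set p : K →L[ℂ] K := E 0 with hp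
  have hpp : p * p = p := by rw [hp, ← hbox.E_add, add_zero]
  have hps : star p = p := by rw [hp, hbox.E_star, map_zero, neg_zero]
  set ζ : K := E (-I / 2) (J ξ) with hζ
  have hpζ : p ζ = ζ := by
    have := hbox.E_add 0 (-I / 2)
    rw [zero_add] at this
    rw [hζ]
    conv_rhs => rw [this]
    rfl
  have hJn : ∀ v : H, ‖J v‖ = ‖v‖ := (h1 H K M ξ U κ V J E T δ hstd.modular hbox).2.2.2.2.1
  have hJξ : ‖J ξ‖ = 1 := by rw [hJn, hstd.unit]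
  have hζJ : ‖ζ - J ξ‖ ≤ δ := by
    have e1 : ζ - J ξ = (E (-I / 2) - E 0) (J ξ) := by
      rw [_root_.sub_apply, hbox.E_J]
    rw [e1]
    calc ‖(E (-I / 2) - E 0) (J ξ)‖ ≤ ‖E (-I / 2) - E 0‖ * ‖J ξ‖ := ContinuousLinearMap.le_opNorm _ _
      _ ≤ δ := by rw [hJξ, mul_one]; exact hbox.nE3
  have hpA : p ∈ A := hEA
  have hκp : κ x * p = p * κ x := hbox.κ_E x 0
  have hZB : κ x * p ∈ B := mul_mem hκx (hAB p hpA)
  have hZp : p * (κ x * p) * p = κ x * p := by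
    rw [← mul_assoc, ← hκp, mul_assoc, mul_assoc, hpp, hpp]
  have hκn : ‖κ x‖ ≤ ‖x‖ := kap_le κ x
  have hδ := hbox.δ_nonneg
  have hu : ∀ u : K →L[ℂ] K, u ∈ A → star u * u = p → u * star u = p →
      ‖(u * (κ x * p) - (κ x * p) * u) ζ‖ ≤ r + 2 * ‖x‖ * δ := by
    intro u huA hu1 hu2
    have hpu := pu p u hpp hps hu2
    have hup := up p u hpp hps hu1
    have hun := norm_u_le p u hpp hps hu1
    have e1 : (u * (κ x * p) - (κ x * p) * u) ζ = (u * κ x - κ x * u) ζ := by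
      have e2 : (κ x * p) * u = κ x * u := by rw [mul_assoc, hpu]
      rw [e2]
      change u (κ x (p ζ)) - κ x (u ζ) = u (κ x ζ) - κ x (u ζ)
      rw [hpζ]
    have e3 : (u * κ x - κ x * u) ζ = (u * κ x - κ x * u) (J ξ) +
        (u * κ x - κ x * u) (ζ - J ξ) := by
      rw [map_sub]; abel
    have e4 : ‖(u * κ x - κ x * u) (J ξ)‖ ≤ r :=
      hY u huA (by rw [hpu, hup]) hun
    have e5 : ‖u * κ x - κ x * u‖ ≤ 2 * ‖x‖ := by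
      calc ‖u * κ x - κ x * u‖ ≤ ‖u * κ x‖ + ‖κ x * u‖ := norm_sub_le _ _
        _ ≤ ‖u‖ * ‖κ x‖ + ‖κ x‖ * ‖u‖ := add_le_add (norm_mul_le _ _) (norm_mul_le _ _)
        _ ≤ 1 * ‖x‖ + ‖x‖ * 1 := by gcongr
        _ = 2 * ‖x‖ := by ring
    rw [e1, e3]
    calc ‖(u * κ x - κ x * u) (J ξ) + (u * κ x - κ x * u) (ζ - J ξ)‖
        ≤ ‖(u * κ x - κ x * u) (J ξ)‖ + ‖(u * κ x - κ x * u) (ζ - J ξ)‖ := norm_add_le _ _
      _ ≤ r + ‖u * κ x - κ x * u‖ * ‖ζ - J ξ‖ :=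
        add_le_add e4 (ContinuousLinearMap.le_opNorm _ _)
      _ ≤ r + 2 * ‖x‖ * δ := by gcongr
  have htr : TrV B p ζ := ⟨hpζ,
    fun Z hZ hZp => h5 H K M ξ U κ V J E T δ hstd.modular hbox Z (hBM Z hZ) hZp,
    fun Z hZ hZp hZ0 => h6 H K M ξ U κ V J E T δ hstd.modular hstd.sep hbox Z (hBM Z hZ) hZp hZ0⟩
  obtain ⟨Z0, hZ0B, hZ0p, hZ0n, hZ0le, hZ0u⟩ := g2 K A B hAB p hpA hpp hps ζ htr
    (κ x * p) (r + 2 * ‖x‖ * δ) hZB hZp hu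
  have hcomm := hd3 K A p hpA hpp hps Z0 hZ0p hZ0u
  obtain ⟨S, hS, hSp, hSn⟩ := g1 K A B hAB p hpA hpp hps Z0 hZ0B hZ0p hcomm
  refine ⟨S, hS, ?_, ?_⟩
  · refine hSn.trans (hZ0le.trans ?_)
    calc ‖κ x * p‖ ≤ ‖κ x‖ * ‖p‖ := norm_mul_le _ _
      _ ≤ ‖x‖ * 1 := by
        have := norm_proj_le p hpp hps
        gcongr
      _ = ‖x‖ := mul_one _
  · have e6 : (S - κ x) ζ = -((κ x * p - Z0) ζ) := by
      rw [← hSp]
      change S ζ - κ x ζ = -(κ x (p ζ) - S (p ζ))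
      rw [hpζ]
      abel
    rw [e6, norm_neg]
    exact hZ0n

theorem q10_of (g1 : S_Q1) (g2 : S_Q2) (h1 : S_B1) (h5 : S_B5) (h6 : S_B6) (h7 : S_B7)
    (h8 : S_B8) (h9 : S_B9) (hA7 : S_A7) (hc7 : S_C7) (hd3 : S_D3) : S_Q10 := by
  intro H K _ _ _ _ _ _ M N ξ U hStd κ V A B hAB hB hA hκ x hx hfix ε hε
  have hxM : x ∈ M := hx.1
  obtain ⟨s, hs0, hs1, hsρ⟩ : ∃ s : ℝ, 0 < s ∧ s ≤ 1 ∧ 4 * s ≤ ε := by
    refine ⟨min 1 (ε / 4), lt_min one_pos (by positivity), min_le_left _ _, ?_⟩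
    have := min_le_right (1 : ℝ) (ε / 4)
    linarith
  have hs2 : 0 < s ^ 2 := by positivity
  -- `L`
  obtain ⟨L, hL0, hL⟩ : ∃ L : ℝ, 0 < L ∧ 8 * ‖x‖ ^ 2 / L ^ 2 ≤ s ^ 2 := by
    refine ⟨(3 * ‖x‖ + 1) / s, by positivity, ?_⟩
    rw [div_le_iff₀ (by positivity), div_pow]
    have h1 : s ^ 2 * ((3 * ‖x‖ + 1) ^ 2 / s ^ 2) = (3 * ‖x‖ + 1) ^ 2 := by
      field_simp
    rw [h1]
    nlinarith [norm_nonneg x, sq_nonneg ‖x‖]
  obtain ⟨A0, hA0, hA1⟩ := hA7 H M N ξ hStd.unit hStd.le x hx L (s ^ 2) hL0 hs2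
  -- `δ`
  obtain ⟨δ, hδ0, hδ1, hδA, hδx⟩ : ∃ δ : ℝ, 0 < δ ∧ δ ≤ 1 ∧ 20 * A0 * (3 * δ) ^ 2 ≤ s ^ 2 ∧
      ‖x‖ * δ ≤ s ^ 2 := by
    have hpos : 0 < 180 * A0 + ‖x‖ + 1 := by positivity
    refine ⟨min 1 (s ^ 2 / (180 * A0 + ‖x‖ + 1)), lt_min one_pos (by positivity),
      min_le_left _ _, ?_, ?_⟩
    · have h1 : min 1 (s ^ 2 / (180 * A0 + ‖x‖ + 1)) ≤ 1 := min_le_left _ _
      have h2 : min 1 (s ^ 2 / (180 * A0 + ‖x‖ + 1)) ≤ s ^ 2 / (180 * A0 + ‖x‖ + 1) :=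
        min_le_right _ _
      have h0 : 0 < min 1 (s ^ 2 / (180 * A0 + ‖x‖ + 1)) := lt_min one_pos (by positivity)
      rw [le_div_iff₀ hpos] at h2
      generalize min 1 (s ^ 2 / (180 * A0 + ‖x‖ + 1)) = δ at h0 h1 h2 ⊢
      have h3 : δ ^ 2 ≤ δ := by nlinarith
      have h4 : 20 * A0 * (3 * δ) ^ 2 = (180 * A0) * δ ^ 2 := by ring
      rw [h4]
      calc (180 * A0) * δ ^ 2 ≤ (180 * A0) * δ := mul_le_mul_of_nonneg_left h3 (by positivity)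
        _ ≤ δ * (180 * A0 + ‖x‖ + 1) := by nlinarith [norm_nonneg x]
        _ ≤ s ^ 2 := h2
    · have h2 : min 1 (s ^ 2 / (180 * A0 + ‖x‖ + 1)) ≤ s ^ 2 / (180 * A0 + ‖x‖ + 1) :=
        min_le_right _ _
      have h0 : 0 < min 1 (s ^ 2 / (180 * A0 + ‖x‖ + 1)) := lt_min one_pos (by positivity)
      rw [le_div_iff₀ hpos] at h2
      generalize min 1 (s ^ 2 / (180 * A0 + ‖x‖ + 1)) = δ at h0 h2 ⊢
      nlinarith [norm_nonneg x]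
  refine ⟨δ, hδ0, fun J E T δ' hBox hE0 hδ' => ?_⟩
  have hδ'0 : 0 ≤ δ' := hBox.δ_nonneg
  -- the estimate for one `Y`
  have hY : ∀ Y : K →L[ℂ] K, Y ∈ A → E 0 * Y * E 0 = Y → ‖Y‖ ≤ 1 →
      ‖(Y * κ x - κ x * Y) (J ξ)‖ ≤ 2 * s := by
    intro Y hYA hYE hY1
    obtain ⟨hC1, hC2, hC3⟩ := h7 H K M N ξ U κ V J E T δ' hStd hBox Y (hA Y hYA) hYE hY1
    obtain ⟨C1, C2, hk1, hk2, hs1', hs2'⟩ :=
      h8 H K M N ξ U κ V J E T δ' hStd hBox Y (hA Y hYA) hYE hY1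
    have hsum : ∀ F : Finset ℤ,
        ∑ m ∈ F, ‖(cf J E T Y m * x - x * cf J E T Y m) ξ‖ ^ 2 ≤ (2 * s) ^ 2 := by
      intro F
      have h1 := hc7 H M N ξ U hStd T L (s ^ 2) A0 (3 * δ') x hxM hfix hL0 hs2.le hA0 hA1 F
        (cf J E T Y) C1 C2 hC1 (hC2 F) (hC3 F) hk1 hk2 (hs1' F) (hs2' F)
      have h2 : 20 * A0 * (3 * δ') ^ 2 ≤ 20 * A0 * (3 * δ) ^ 2 := by
        apply mul_le_mul_of_nonneg_left _ (by positivity)
        apply pow_le_pow_left₀ (by positivity)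
        linarith
      have h3 : (2 * s) ^ 2 = 2 * s ^ 2 + s ^ 2 + s ^ 2 := by ring
      rw [h3]
      linarith
    have h4 := h9 H K ξ U κ V J E T δ' hBox Y x ((2 * s) ^ 2) hYE hsum
    exact (sq_le_sq₀ (norm_nonneg _) (by positivity)).1 h4
  obtain ⟨S, hS, hSn, hSε⟩ := onebox g1 g2 h1 h5 h6 hd3 H K M N ξ U hStd κ V A B hAB hB
    J E T δ' hBox hE0 x (2 * s) (hκ x hxM hfix) hY
  refine ⟨S, hS, hSn, hSε.trans ?_⟩
  have h6' : ‖x‖ * δ' ≤ ‖x‖ * δ := mul_le_mul_of_nonneg_left hδ' (norm_nonneg _)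
  have h7' : s ^ 2 ≤ s := by nlinarith
  nlinarith

end Pool.Agent.W853.CB2
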